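import Mathlib
import Pool.Agent.H44.GS3

open Filter Topology Real

namespace Pool.Agent.Results.MP_287b0d_an.Q1False

open Pool.Agent.H44.GS

theorem result :
    (∃ (lam : ℝ) (μ : ℝ → ℝ), 0 < lam ∧
      (∀ x ∈ X, Tendsto (fun n : ℕ => (N n x : ℝ) / lam ^ n) atTop (𝓝 (μ x))) ∧ 0 < μ 0) ∧
    ∀ (lam : ℝ) (μ : ℝ → ℝ), 0 < lam →
      (∀ x ∈ X, Tendsto (fun n : ℕ => (N n x : ℝ) / lam ^ n) atTop (𝓝 (μ x))) → 0 < μ 0 →
      ∃ f : ℝ → ℝ, Continuous f ∧ ∃ ε : ℝ, 0 < ε ∧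
        ∃ᶠ n : ℕ in atTop, ε ≤ |nuInt μ n f - ∫ t in (0 : ℝ)..1, f t| := by
  refine ⟨exists_mu, fun lam μ hl hμ h0 => ⟨fun t => cos (2 * π * t), by fun_prop, PP 4 / 20,
    by have := PP_pos 4; positivity, (main hl hμ h0).mono fun n hn => ?_⟩⟩
  have : ∫ t in (0 : ℝ)..1, cos (2 * π * t) = 0 := by
    rw [intervalIntegral.integral_comp_mul_left (fun x => cos x) (by positivity), integral_cos]
    simp
  rw [this, sub_zero]
  exact le_trans hn (le_abs_self _)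

end Pool.Agent.Results.MP_287b0d_an.Q1False
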